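import Mathlib
import Pool.Agent.Helper647.PN.Main

set_option autoImplicit false

open Set Cardinal Topology Pool.Agent.Helper647.PN

/-- Under Martin's axiom every perfectly normal compact Hausdorff space `X` of weight `< 𝔠` with
`p(C_p(X)) = ω` is metrizable. -/
theorem Pool.Agent.Results.MP_3b51b4_gt.MartinWeight.result
    (MA : MartinAxiom) (X : Type) [TopologicalSpace X] [CompactSpace X] [T2Space X]
    [PerfectlyNormalSpace X] (hw : WeightLT X 𝔠) (hp : CountablePointFiniteCellularity X) :
    TopologicalSpace.MetrizableSpace X :=
  main MA X hw hp
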